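import Pool.Agent.W2helper56.CM.Final

/-!
# COL-2PM is NP-complete

Given a bipartite graph with edges coloured 1 and 2, do there exist edge-disjoint perfect matchings
`M₁`, `M₂` such that all edges of `M₁` have the colour 1?

The reduction is from exact cover by 3-sets. Every vertex of degree two uses one of its edges in
`M₁` and the other one in `M₂`. A path of length three with the middle edge of colour 2 forces its
outer edges into `M₁`; a cycle of length four through two vertices of degree two, with two opposite
edges of colour 2, behaves like one edge which cannot be used by `M₂`. So every triple is a closed
chain of six vertices which are either all matched by `M₂` to the vertices of the elements of the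
triple (there are two copies of every element, one in each side), or none of them is; and an element
is matched by `M₂` exactly once.
-/

set_option autoImplicit false

namespace Pool.Agent.Results.MP_439cda_lc.Col2PMNPComplete

open Pool.Agent.NPC Pool.Agent.W2helper56.CM

/-- COL-2PM is in `NP`, it is `NP`-hard under polynomial-time many-one reductions, and it is in `P`
if and only if `P = NP`. -/
theorem result :
    InNPP (Col2PM : Inst ℕ ℕ → Prop) ∧ NPHardP (Col2PM : Inst ℕ ℕ → Prop) ∧
      (InPP (Col2PM : Inst ℕ ℕ → Prop) ↔ ∀ L : Set (List Bool), InNP L → InP L) :=
  ⟨inNPP_col2PM, hardI_col2PM.toNPHardP, fun h => NPHard.collapse hardI_col2PM.toNPHardP h,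
    fun h => h _ inNPP_col2PM⟩

end Pool.Agent.Results.MP_439cda_lc.Col2PMNPComplete
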